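import Pool.Agent.U540.PT.Ex
import Pool.Agent.U540.PT.HARD
import Pool.Agent.U540.PT.PRA
import Pool.Agent.U540.PT.PRB
import Pool.Agent.U540.PT.BLA
import Pool.Agent.U540.PT.BLB

/-!
# The Bodirsky-Pinsker dichotomy for random templates of every density

Let `G` be a permutation group with finitely many orbits on tuples (for example the automorphism group
of a homogeneous structure in a finite signature), and let `E` be a symmetric type of pairs with infinite
cliques, such that the cliques of each finite size are all in one orbit (`CliqueType`; for structures with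
relations of arity at most two this holds for all symmetric orbits of pairs with infinite cliques).
We consider the templates `(B; Γ, R)`, where `Γ` is a fixed family of invariant relations which
defines `E` and its reflexive closure and contains all nonconstant tuples whose entries are pairwise equal or
`E`-related, and `R` is a random invariant relation of arity `k`, which misses every orbit with
probability `ε`.

There is a sharp threshold at `ε = 1 / Bell(k)`, up to a factor `k ^ 2`: with probability at least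
`1 - ε Bell(k)` the template is on the tractable side (it does not pp-construct `K_3`, and its constraint
satisfaction problem is solved by looking at single elements), and with probability at least
`1 - exp (- ε (1 - ε) ^ 2 Bell(k-2))` it pp-constructs `K_3` and is NP-complete. In the whole range
of densities, the critical window included, almost no template is on neither side: the probability of this is
at most `2 ^ k ε + 2 ε ^ 2 Bell(k)`, and it tends to `0` as `k → ∞`, uniformly in `ε ∈ [0, 1 - δ]`. The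
bounds hold for all joint laws for which the conditional probabilities of absence are in `[α, β]`.
-/

set_option autoImplicit false

namespace Pool.Agent.Results.MP_6ab439_lc.EveryDensity

open Pool.Agent.W994.AR Pool.Agent.U540.BP Pool.Agent.U540.PT
open Pool.Agent.N455.CS (IsLaw prob productLaw)

theorem result :
    (∀ (B : Type) (G : Subgroup (Equiv.Perm B)), (∀ n, Finite (Orb G (Fin n))) →
      ∀ E : B → B → Prop, CliqueType G E →
      ∀ (ι : Type) (arΓ : ι → ℕ) (Γ : Str ι arΓ B), (∀ l, Invar G (Γ l)) →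
      PPDef Γ {v : Fin 2 → B | E (v 0) (v 1)} →
      PPDef Γ {v : Fin 2 → B | v 0 = v 1 ∨ E (v 0) (v 1)} →
      (∀ l (v : Fin (arΓ l) → B), NC v → (∀ i j, v i ≠ v j → E (v i) (v j)) → v ∈ Γ l) →
        -- the two sides of the threshold, and the templates on neither side
        (∀ (k : ℕ) (α β : ℝ), 0 ≤ α → α ≤ β → β ≤ 1 →
          ∀ μ : Set (Orb G (Fin k)) → ℝ, IsLaw μ → Abs α β μ →
            prob μ (fun Θ => ¬ Tractable (tmpl Γ (rel1 G Θ))) ≤ bell k * β ∧
            (3 ≤ k → prob μ (fun Θ => ¬ PPConstructsK3 (tmpl Γ (rel1 G Θ))) ≤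
              Real.exp (-(α * (1 - β) ^ 2 * bell (k - 2)))) ∧
            prob μ (fun Θ => ¬ Tractable (tmpl Γ (rel1 G Θ)) ∧
              ¬ PPConstructsK3 (tmpl Γ (rel1 G Θ))) ≤ 2 ^ k * β + 2 * β ^ 2 * bell k) ∧
        -- the dichotomy holds for almost all templates, uniformly in the density
        (∀ δ : ℝ, 0 < δ → ∃ k0 : ℕ, ∀ k : ℕ, k0 ≤ k → ∀ ε : ℝ, 0 ≤ ε → ε ≤ 1 - δ →
          prob (productLaw fun _ : Orb G (Fin k) => 1 - ε) (fun Θ =>
            ¬ Tractable (tmpl Γ (rel1 G Θ)) ∧ ¬ PPConstructsK3 (tmpl Γ (rel1 G Θ))) ≤ δ)) ∧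
    -- the width of the critical window
    (∀ k, bell (k + 2) ≤ (k + 2) ^ 2 * bell k) ∧
    -- independent orbits which are absent with probability `ε`
    (∀ (Ω : Type) [Finite Ω] (ε : ℝ), 0 ≤ ε → ε ≤ 1 →
      IsLaw (productLaw (fun _ : Ω => 1 - ε)) ∧ Abs ε ε (productLaw (fun _ : Ω => 1 - ε))) ∧
    -- clique types of homogeneous structures with relations of arity at most two
    (∀ (B σ : Type) (arB : σ → ℕ), (∀ s, arB s ≤ 2) → ∀ 𝔹 : Str σ arB B, Homogeneous 𝔹 →
      (∀ a b : B, ∃ g ∈ autGroup 𝔹, g a = b) → ∀ E : B → B → Prop,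
      (∀ a b, E a b → E b a) → (∀ a, ¬ E a a) →
      (∀ a b a' b', E a b → E a' b' → ∃ g ∈ autGroup 𝔹, g a = a' ∧ g b = b') →
      (∃ J : ℕ → B, ∀ i j, i ≠ j → E (J i) (J j)) → CliqueType (autGroup 𝔹) E) ∧
    -- the templates are reducts of homogeneous, finitely bounded structures
    (∀ (B σ : Type) [Finite σ] (arB : σ → ℕ) (𝔹 : Str σ arB B), Homogeneous 𝔹 →
      (∀ n, Finite (Orb (autGroup 𝔹) (Fin n))) ∧
      ∀ (ι : Type) [Finite ι] (ar : ι → ℕ) (Γ : Str ι ar B), (∀ l, Invar (autGroup 𝔹) (Γ l)) →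
        Homogeneous (expand 𝔹 Γ) ∧ (FinitelyBounded 𝔹 → FinitelyBounded (expand 𝔹 Γ))) ∧
    -- example: the clique types of `N` crossing equivalence relations on `ℕ ^ N`
    (∀ N : ℕ, Homogeneous (grid N) ∧ FinitelyBounded (grid N) ∧
      ∀ T : Finset (Fin N), T ≠ Finset.univ → CliqueType (autGroup (grid N)) (gridType N T)) := by
  refine ⟨?_, ?_, PRB_ok.2, ?_, ?_, ?_⟩
  · intro B G hfin E hE ι arΓ Γ hΓ hE1 hE2 hΓE
    refine ⟨fun k α β hα hαβ hβ μ hμ hA => ?_, fun δ hδ => ?_⟩
    · have := hfin k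
      exact ⟨b1 PRA_ok PRB_ok hE Γ hΓ hΓE k α β hα hαβ hβ μ hμ hA,
        fun hk => b2 HARD_ok PRA_ok PRB_ok hE Γ (toPP hE1) (toPP hE2) k hk α β hα hαβ hβ μ hμ hA,
        b3 HARD_ok PRA_ok PRB_ok hE Γ hΓ hΓE (toPP hE1) (toPP hE2) k α β hα hαβ hβ μ hμ hA⟩
    · exact uniform HARD_ok PRA_ok PRB_ok BLA_ok BLB_ok hfin hE Γ hΓ hΓE (toPP hE1) (toPP hE2) δ hδ
  · intro k
    have h1 := BLA_ok.1 (k + 1)
    have h2 := BLA_ok.1 k
    calc bell (k + 2) ≤ (k + 1 + 1) * bell (k + 1) := h1
      _ ≤ (k + 1 + 1) * ((k + 1) * bell k) := Nat.mul_le_mul_left _ h2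
      _ ≤ (k + 2) * ((k + 2) * bell k) :=
        Nat.mul_le_mul_left _ (Nat.mul_le_mul_right _ (by omega))
      _ = _ := by ring
  · intro B σ arB har 𝔹 h𝔹 htr E h1 h2 h3 h4
    exact binary har 𝔹 h𝔹 htr E h1 h2 h3 h4
  · intro B σ _ arB 𝔹 h𝔹
    exact ⟨fun n => hom_finite h𝔹 (Fin n), fun ι _ ar Γ hΓ =>
      ⟨homogeneous_expand h𝔹 _ hΓ, fun h => finitelyBounded_expand h𝔹 h _ hΓ⟩⟩
  · intro N
    exact ⟨grid_homogeneous N, grid_finitelyBounded N, fun T hT => grid_cliqueType N T hT⟩

end Pool.Agent.Results.MP_6ab439_lc.EveryDensity
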