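import Pool.Agent.U540.PU.Rat
import Pool.Agent.U540.PU.OGAD
import Pool.Agent.U540.PU.OSD
import Pool.Agent.U540.PU.OKA
import Pool.Agent.U540.PU.OKB
import Pool.Agent.U540.PU.OCSP
import Pool.Agent.U540.PU.RANK
import Pool.Agent.U540.PU.FUA
import Pool.Agent.U540.PU.FUB
import Pool.Agent.U540.PT.PRA
import Pool.Agent.U540.PT.PRB

/-!
# The Bodirsky-Pinsker dichotomy for random templates of every density over ordered structures

Let `G` be a permutation group with finitely many orbits on tuples (for example the automorphism group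
of a homogeneous structure in a finite signature), and let `E` be a strict partial order preserved by `G`
with infinite chains, such that the chains of each finite size are all in one orbit (`ChainType`): for
example `(ℚ; <)`, the generic partial order, or, in structures with relations of arity at most two, all
orbits of pairs which are strict partial orders with infinite chains. We consider the templates
`(B; E, E ∪ {=}, R)`, where `R` is a random invariant relation of arity `k`, which misses every orbit with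
probability `ε`. There are no free sets here (the relation `E` is not symmetric), and the tractable side is
reachability in directed graphs.

There is a sharp threshold at `ε = 1 / Fub(k)`, up to a factor `(2 k) ^ 2`, where `Fub(k)` is the number of
total preorders on `k` elements: with probability at least `1 - ε Fub(k)` the template is on the
tractable side, and with probability at least `1 - exp (- ε (1 - ε) ^ 2 Fub(k-2))` it pp-constructs `K_3`.
In the whole range of densities, the critical window included, almost no template is on neither side.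
-/

set_option autoImplicit false

namespace Pool.Agent.Results.MP_6ab439_lc.EveryDensityOrders

open Pool.Agent.W994.AR Pool.Agent.U540.BP Pool.Agent.U540.PU
open Pool.Agent.U540.PT (rel1 Abs PRA_ok PRB_ok)
open Pool.Agent.N455.CS (IsLaw prob productLaw)

theorem result :
    (∀ (B : Type) (G : Subgroup (Equiv.Perm B)), (∀ n, Finite (Orb G (Fin n))) →
      ∀ E : B → B → Prop, ChainType G E →
        -- the two sides of the threshold, and the templates on neither side
        (∀ (k : ℕ) (α β : ℝ), 0 ≤ α → α ≤ β → β ≤ 1 →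
          ∀ μ : Set (Orb G (Fin k)) → ℝ, IsLaw μ → Abs α β μ →
            prob μ (fun Θ => ¬ TractableOrd E (rel1 G Θ)) ≤ fub k * β ∧
            (3 ≤ k → prob μ (fun Θ => ¬ PPConstructsK3 (otmpl E (rel1 G Θ))) ≤
              Real.exp (-(α * (1 - β) ^ 2 * fub (k - 2)))) ∧
            prob μ (fun Θ => ¬ TractableOrd E (rel1 G Θ) ∧
              ¬ PPConstructsK3 (otmpl E (rel1 G Θ))) ≤ 2 ^ k * β + 2 * β ^ 2 * fub k) ∧
        -- the dichotomy holds for almost all templates, uniformly in the density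
        (∀ δ : ℝ, 0 < δ → ∃ k0 : ℕ, ∀ k : ℕ, k0 ≤ k → ∀ ε : ℝ, 0 ≤ ε → ε ≤ 1 - δ →
          prob (productLaw fun _ : Orb G (Fin k) => 1 - ε) (fun Θ =>
            ¬ TractableOrd E (rel1 G Θ) ∧ ¬ PPConstructsK3 (otmpl E (rel1 G Θ))) ≤ δ)) ∧
    -- the width of the critical window
    (∀ k, fub (k + 2) ≤ (2 * k + 3) ^ 2 * fub k) ∧
    -- independent orbits which are absent with probability `ε`
    (∀ (Ω : Type) [Finite Ω] (ε : ℝ), 0 ≤ ε → ε ≤ 1 →
      IsLaw (productLaw (fun _ : Ω => 1 - ε)) ∧ Abs ε ε (productLaw (fun _ : Ω => 1 - ε))) ∧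
    -- chain types of homogeneous structures with relations of arity at most two
    (∀ (B σ : Type) (arB : σ → ℕ), (∀ s, arB s ≤ 2) → ∀ 𝔹 : Str σ arB B, Homogeneous 𝔹 →
      (∀ a b : B, ∃ g ∈ autGroup 𝔹, g a = b) → ∀ E : B → B → Prop,
      (∀ a, ¬ E a a) → (∀ a b c, E a b → E b c → E a c) →
      (∀ g ∈ autGroup 𝔹, ∀ a b, E a b → E (g a) (g b)) →
      (∀ a b a' b', E a b → E a' b' → ∃ g ∈ autGroup 𝔹, g a = a' ∧ g b = b') →
      (∃ J : ℕ → B, ∀ i j, i < j → E (J i) (J j)) → ChainType (autGroup 𝔹) E) ∧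
    -- the templates are reducts of homogeneous, finitely bounded structures
    (∀ (B σ : Type) [Finite σ] (arB : σ → ℕ) (𝔹 : Str σ arB B), Homogeneous 𝔹 →
      (∀ n, Finite (Orb (autGroup 𝔹) (Fin n))) ∧
      ∀ (ι : Type) [Finite ι] (ar : ι → ℕ) (Γ : Str ι ar B), (∀ l, Invar (autGroup 𝔹) (Γ l)) →
        Homogeneous (expand 𝔹 Γ) ∧ (FinitelyBounded 𝔹 → FinitelyBounded (expand 𝔹 Γ))) ∧
    -- example: the order of the rational numbers
    (Homogeneous ordQ ∧ FinitelyBounded ordQ ∧
      ChainType (autGroup ordQ) (fun a b : ℚ => a < b)) := by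
  refine ⟨?_, ?_, PRB_ok.2, ?_, ?_, ordQ_homogeneous, ordQ_finitelyBounded, ordQ_chainType⟩
  · intro B G hfin E hE
    refine ⟨fun k α β hα hαβ hβ μ hμ hA => ?_, fun δ hδ => ?_⟩
    · have := hfin k
      exact ⟨b1 OCSP_ok OKA_ok OKB_ok RANK_ok FUA_ok PRA_ok PRB_ok hE k α β hα hαβ hβ μ hμ hA,
        fun hk => b2 OGAD_ok OSD_ok RANK_ok FUA_ok PRA_ok PRB_ok hE k hk α β hα hαβ hβ μ hμ hA,
        b3 OCSP_ok OKA_ok OKB_ok OGAD_ok OSD_ok RANK_ok FUA_ok PRA_ok PRB_ok hE k α β hα hαβ hβ μ
          hμ hA⟩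
    · exact uniform OCSP_ok OKA_ok OKB_ok OGAD_ok OSD_ok RANK_ok FUA_ok FUB_ok PRA_ok PRB_ok hfin
        hE δ hδ
  · intro k
    have h1 := FUA_ok.1 (k + 1)
    have h2 := FUA_ok.1 k
    calc fub (k + 2) ≤ (2 * (k + 1) + 1) * fub (k + 1) := h1
      _ ≤ (2 * (k + 1) + 1) * ((2 * k + 1) * fub k) := Nat.mul_le_mul_left _ h2
      _ ≤ (2 * k + 3) * ((2 * k + 3) * fub k) :=
        Nat.mul_le_mul (by omega) (Nat.mul_le_mul_right _ (by omega))
      _ = _ := by ring
  · intro B σ arB har 𝔹 h𝔹 htr E h1 h2 h3 h4 h5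
    exact binary har 𝔹 h𝔹 htr E h1 h2 h3 h4 h5
  · intro B σ _ arB 𝔹 h𝔹
    exact ⟨fun n => hom_finite h𝔹 (Fin n), fun ι _ ar Γ hΓ =>
      ⟨homogeneous_expand h𝔹 _ hΓ, fun h => finitelyBounded_expand h𝔹 h _ hΓ⟩⟩

end Pool.Agent.Results.MP_6ab439_lc.EveryDensityOrders
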