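import Pool.Agent.U540.BP.Grid

/-!
# The Bodirsky-Pinsker dichotomy for random templates of bounded arity

The starting results treat random invariant relations of LARGE ARITY over a FIXED homogeneous structure:
almost all the templates without a constant endomorphism are on the hard side. Here the arities are
fixed, and the structure has MANY types of pairs. Let `G` be a permutation group on `B` with finitely
many orbits on tuples (for example the automorphism group of a homogeneous structure in a finite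
signature), and let `J_1, ..., J_N` be sets which meet all the orbits of points in infinite sets, such
that no pair of distinct points of `J_c` is in the same orbit as a pair of distinct points of another
`J_c'`. Let `R_1, ..., R_t` be random invariant relations of arities `k_1, ..., k_t ≤ K`, with an arbitrary
joint law of finite energy `ε`, and let `p` be the number of orbits of points. Outside of an event of
probability at most `exp (-N ε ^ (∑ j, (K p) ^ (k_j)))`, ALL the templates which consist of some of the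
relations `R_j` and of fixed invariant relations which contain all nonconstant tuples of the sets `J_c`
(for example `≠`) are on the tractable side of the dichotomy: they do not pp-construct `K_3`, and their
constraint satisfaction problem is solved by looking at single elements. There is also a deterministic
form, and an example: the `N` crossing equivalence relations on `ℕ ^ N` form a finitely bounded
homogeneous structure with `2 ^ N - 1` such sets.
-/

set_option autoImplicit false

namespace Pool.Agent.Results.MP_6ab439_lc.ManyPairTypes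

open Pool.Agent.W994.AR Pool.Agent.U540.BP
open Pool.Agent.N455.CS (Omega rel IsLaw prob FiniteEnergy productLaw gibbsLaw)

/-- Under the law `μ` all the templates which consist of `Γ` and of some of the random relations are
tractable, outside of an event of probability at most `δ`. -/
def MostlyTractable {B : Type} (G : Subgroup (Equiv.Perm B)) {ι : Type} {arΓ : ι → ℕ}
    (Γ : Str ι arΓ B) {t : ℕ} (k : Fin t → ℕ) (μ : Set (Omega G k) → ℝ) (δ : ℝ) : Prop :=
  prob μ (fun Θ => ¬ ∀ (s : ℕ) (e : Fin s → Fin t),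
    Tractable (expand Γ (fun j => (rel G k Θ (e j)).1))) ≤ δ

theorem result :
    -- the bound for groups with finitely many orbits of tuples
    (∀ (B : Type) (G : Subgroup (Equiv.Perm B)), (∀ n, Finite (Orb G (Fin n))) →
      ∀ (N : ℕ) (J : Fin N → Set B), (∀ c o, (part G (J c) o).Infinite) →
      (∀ c c', c ≠ c' → DifferentPairs G (J c) (J c')) →
      ∀ (ι : Type) (arΓ : ι → ℕ) (Γ : Str ι arΓ B), (∀ l, Invar G (Γ l)) →
      (∀ l c (v : Fin (arΓ l) → B), NC v → (∀ i, v i ∈ J c) → v ∈ Γ l) →
      ∀ (t : ℕ) (k : Fin t → ℕ),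
        -- random relations
        (∀ (K : ℕ), 0 < K → (∀ j, k j ≤ K) → ∀ ε : ℝ, 0 ≤ ε → ε ≤ 1 →
          ∀ μ : Set (Omega G k) → ℝ, IsLaw μ → FiniteEnergy ε μ →
            MostlyTractable G Γ k μ
              (Real.exp (-(N * ε ^ (∑ j, (K * Nat.card (Orb G (Fin 1))) ^ (k j)))))) ∧
        -- fewer than `N` orbits of nonconstant tuples are missing
        (∀ Θ : Set (Omega G k), Nat.card {o : Omega G k // o ∉ Θ ∧
            ∃ (c : Fin N) (v : Fin (k o.1) → B), NC v ∧ (∀ i, v i ∈ J c) ∧
              Quotient.mk (orb G (Fin (k o.1))) v = o.2} < N →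
          ∀ (s : ℕ) (e : Fin s → Fin t),
            Tractable (expand Γ (fun j => (rel G k Θ (e j)).1)))) ∧
    -- the templates are reducts of homogeneous, finitely bounded structures
    (∀ (B σ : Type) [Finite σ] (arB : σ → ℕ) (𝔹 : Str σ arB B), Homogeneous 𝔹 →
      (∀ n, Finite (Orb (autGroup 𝔹) (Fin n))) ∧
      ∀ (ι : Type) [Finite ι] (ar : ι → ℕ) (Γ : Str ι ar B), (∀ l, Invar (autGroup 𝔹) (Γ l)) →
        Homogeneous (expand 𝔹 Γ) ∧ (FinitelyBounded 𝔹 → FinitelyBounded (expand 𝔹 Γ))) ∧
    -- example: `N` crossing equivalence relations on `ℕ ^ N`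
    (∀ N : ℕ, Homogeneous (grid N) ∧ FinitelyBounded (grid N) ∧
      ∀ (ι : Type) (arΓ : ι → ℕ) (Γ : Str ι arΓ (Fin N → ℕ)),
        (∀ l, Invar (autGroup (grid N)) (Γ l)) →
        (∀ l (T : Finset (Fin N)), T ≠ Finset.univ → ∀ v : Fin (arΓ l) → (Fin N → ℕ),
          NC v → (∀ i, v i ∈ line N T) → v ∈ Γ l) →
        ∀ (t : ℕ) (k : Fin t → ℕ) (K : ℕ), 0 < K → (∀ j, k j ≤ K) → ∀ ε : ℝ, 0 ≤ ε → ε ≤ 1 →
          ∀ μ : Set (Omega (autGroup (grid N)) k) → ℝ, IsLaw μ → FiniteEnergy ε μ →
            MostlyTractable (autGroup (grid N)) Γ k μ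
              (Real.exp (-((2 ^ N - 1 : ℕ) * ε ^ (∑ j, K ^ (k j)))))) ∧
    -- independent orbits and Gibbs laws have finite energy
    (∀ (Ω : Type) [Finite Ω] (p : Ω → ℝ) (ε : ℝ), 0 ≤ ε → (∀ o, ε ≤ p o ∧ p o ≤ 1 - ε) →
      IsLaw (productLaw p) ∧ FiniteEnergy ε (productLaw p)) ∧
    (∀ (Ω : Type) [Finite Ω] (H : Set Ω → ℝ) (L : ℝ),
      (∀ (Θ : Set Ω) (o : Ω), |H (insert o Θ) - H (Θ \ {o})| ≤ L) →
        IsLaw (gibbsLaw H) ∧ FiniteEnergy (1 / (1 + Real.exp L)) (gibbsLaw H)) := by
  refine ⟨?_, ?_, ?_, ?_, ?_⟩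
  · intro B G hfin N J hJ hJJ ι arΓ Γ hΓ hΓJ t k
    exact ⟨fun K hK hk ε hε hε1 μ hμ hfe =>
      prob_bound hfin J hJ hJJ Γ hΓ hΓJ k K hK hk ε hε hε1 μ hμ hfe,
      fun Θ hΘ s e => det hfin J hJ hJJ Γ hΓ hΓJ k Θ hΘ s e⟩
  · intro B σ _ arB 𝔹 h𝔹
    exact ⟨fun n => hom_finite h𝔹 (Fin n), fun ι _ ar Γ hΓ =>
      ⟨homogeneous_expand h𝔹 _ hΓ, fun h => finitelyBounded_expand h𝔹 h _ hΓ⟩⟩
  · intro N
    refine ⟨grid_homogeneous N, grid_finitelyBounded N, ?_⟩
    intro ι arΓ Γ hΓ hΓJ t k K hK hk ε hε hε1 μ hμ hfe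
    obtain ⟨J, hJT, hJ, hJJ⟩ := grid_family N
    have h1 := prob_bound (fun n => hom_finite (grid_homogeneous N) (Fin n)) J hJ hJJ Γ hΓ
      (by
        intro l c v hv hvJ
        obtain ⟨T, hT, hJc⟩ := hJT c
        rw [hJc] at hvJ
        exact hΓJ l T hT v hv hvJ) k K hK hk ε hε hε1 μ hμ hfe
    rw [grid_card_orb, mul_one] at h1
    exact h1
  · intro Ω _ p ε hε hp
    exact Pool.Agent.N455.CS.product_law p ε hε hp
  · intro Ω _ H L hH
    exact Pool.Agent.N455.CS.gibbs_law H L hH

end Pool.Agent.Results.MP_6ab439_lc.ManyPairTypes
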