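import Pool.Agent.U540.PV.Two

/-!
# A dichotomy for templates which contain all two-valued clique tuples

Let `G` be a permutation group (for example the automorphism group of a homogeneous structure), and let `E`
be a symmetric type of pairs with infinite cliques, such that the cliques of each finite size are all in one
orbit (`CliqueType`). We consider all templates `𝔸` (with any number of relations) whose relations are
`G`-invariant, which define `E` and `E ∪ {=}`, and which contain all tuples with exactly two values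
which are related by `E`. There is a dichotomy without exceptions: if all relations contain all nonconstant
tuples with values in a clique, then `𝔸` does not pp-construct `K_3`, and its constraint satisfaction
problem is solved by looking at single elements; otherwise `𝔸` pp-constructs `K_3`. The same is true for
the templates `(B; E, E ∪ {=}, R)`, where `E` is a strict partial order with homogeneous infinite chains
(`ChainType`) and `R` contains all comparable tuples with exactly two values; the tractable side is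
reachability in directed graphs here.
-/

set_option autoImplicit false

namespace Pool.Agent.Results.MP_6ab439_lc.TwoValuedTuples

open Pool.Agent.W994.AR Pool.Agent.U540.BP Pool.Agent.U540.PT Pool.Agent.U540.PU Pool.Agent.U540.PV

theorem result :
    -- symmetric types of pairs, arbitrary families of relations
    (∀ (B : Type) (G : Subgroup (Equiv.Perm B)) (E : B → B → Prop), CliqueType G E →
      ∀ (ι : Type) (ar : ι → ℕ) (𝔸 : Str ι ar B), (∀ l, Invar G (𝔸 l)) →
      PPDef 𝔸 {v : Fin 2 → B | E (v 0) (v 1)} →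
      PPDef 𝔸 {v : Fin 2 → B | v 0 = v 1 ∨ E (v 0) (v 1)} →
      (∀ l (v : Fin (ar l) → B), Clique E v → (Set.range v).ncard = 2 → v ∈ 𝔸 l) →
        ((∀ l (v : Fin (ar l) → B), NC v → Clique E v → v ∈ 𝔸 l) → Tractable 𝔸) ∧
        ((∃ l, ∃ v : Fin (ar l) → B, NC v ∧ Clique E v ∧ v ∉ 𝔸 l) → PPConstructsK3 𝔸)) ∧
    -- strict partial orders
    (∀ (B : Type) (G : Subgroup (Equiv.Perm B)) (E : B → B → Prop), ChainType G E →
      ∀ (k : ℕ) (R : Set (Fin k → B)), Invar G R →
      (∀ v : Fin k → B, Chain E v → (Set.range v).ncard = 2 → v ∈ R) →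
        ((∀ v : Fin k → B, NC v → Chain E v → v ∈ R) → TractableOrd E R) ∧
        ((∃ v : Fin k → B, NC v ∧ Chain E v ∧ v ∉ R) → PPConstructsK3 (otmpl E R))) ∧
    -- the templates are reducts of homogeneous, finitely bounded structures
    (∀ (B σ : Type) [Finite σ] (arB : σ → ℕ) (𝔹 : Str σ arB B), Homogeneous 𝔹 →
      ∀ (ι : Type) [Finite ι] (ar : ι → ℕ) (Γ : Str ι ar B), (∀ l, Invar (autGroup 𝔹) (Γ l)) →
        Homogeneous (expand 𝔹 Γ) ∧ (FinitelyBounded 𝔹 → FinitelyBounded (expand 𝔹 Γ))) ∧
    -- clique types and chain types of homogeneous structures with relations of arity at most two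
    (∀ (B σ : Type) (arB : σ → ℕ), (∀ s, arB s ≤ 2) → ∀ 𝔹 : Str σ arB B, Homogeneous 𝔹 →
      (∀ a b : B, ∃ g ∈ autGroup 𝔹, g a = b) → ∀ E : B → B → Prop,
      (∀ a, ¬ E a a) → (∀ g ∈ autGroup 𝔹, ∀ a b, E a b → E (g a) (g b)) →
      (∀ a b a' b', E a b → E a' b' → ∃ g ∈ autGroup 𝔹, g a = a' ∧ g b = b') →
      (∃ J : ℕ → B, ∀ i j, i < j → E (J i) (J j)) →
      ((∀ a b, E a b → E b a) → CliqueType (autGroup 𝔹) E) ∧
      ((∀ a b c, E a b → E b c → E a c) → ChainType (autGroup 𝔹) E)) ∧
    -- examples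
    (∀ N : ℕ, Homogeneous (grid N) ∧ FinitelyBounded (grid N) ∧
      ∀ T : Finset (Fin N), T ≠ Finset.univ → CliqueType (autGroup (grid N)) (gridType N T)) ∧
    (Homogeneous ordQ ∧ FinitelyBounded ordQ ∧
      ChainType (autGroup ordQ) (fun a b : ℚ => a < b)) := by
  refine ⟨?_, ?_, ?_, ?_, ?_, ordQ_homogeneous, ordQ_finitelyBounded, ordQ_chainType⟩
  · intro B G E h ι ar 𝔸 h𝔸 hE1 hE2 htwo
    refine ⟨fun hall => clique_easy h 𝔸 h𝔸 hall, ?_⟩
    rintro ⟨l, v, hnc, hv, hvl⟩
    exact clique_hard h 𝔸 h𝔸 (toPP hE1) (toPP hE2) htwo l v hnc hv hvl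
  · intro B G E h k R hR htwo
    refine ⟨fun hall => chain_easy h R hR hall, ?_⟩
    rintro ⟨v, hnc, hv, hvl⟩
    exact chain_hard h R hR htwo v hnc hv hvl
  · intro B σ _ arB 𝔹 h𝔹 ι _ ar Γ hΓ
    exact ⟨homogeneous_expand h𝔹 _ hΓ, fun h => finitelyBounded_expand h𝔹 h _ hΓ⟩
  · intro B σ arB har 𝔹 h𝔹 htr E hirr hinv horb hinf
    refine ⟨fun hsymm => ?_, fun htrans => ?_⟩
    · refine Pool.Agent.U540.PT.binary har 𝔹 h𝔹 htr E hsymm hirr horb ?_
      obtain ⟨J, hJ⟩ := hinf
      refine ⟨J, fun i j hij => ?_⟩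
      rcases lt_or_gt_of_ne hij with h1 | h1
      · exact hJ i j h1
      · exact hsymm _ _ (hJ j i h1)
    · exact Pool.Agent.U540.PU.binary har 𝔹 h𝔹 htr E hirr htrans hinv horb hinf
  · intro N
    exact ⟨grid_homogeneous N, grid_finitelyBounded N, fun T hT => grid_cliqueType N T hT⟩

end Pool.Agent.Results.MP_6ab439_lc.TwoValuedTuples
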